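import Mathlib
import Pool.Agent.H87.Luz.Plain
import Pool.Agent.H87.Luz.Index
import Pool.Agent.H87.Luz.Unit

/-!
# Consistently there is a `κ`-Luzin set but no `κ`-Luzin subgroup of `ℝ ^ n`

Forcing notions are preordered sets `P : Type`; a sentence of the forcing language is represented
by the set of the conditions which force it, and a name of a subset of a ground model set `X` is a
map from `X` to the subsets of `P`.
-/

set_option autoImplicit false

namespace Pool.Agent.Results.MP_6ff61e_lc.NoLuzinSubgroup

open Cardinal Set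
open Pool.Agent.H87.Luz (IsLuzin SingAx SingHolds)
open Pool.Agent.Helper292.ForceCH (OmegaOnePreserved)

/-- (1) If the principle `SingAx` holds, then for some uncountable cardinal `κ` and all `n ≥ 1`
there is a `κ`-Luzin set for the ideal of the meagre subsets of `ℝ ^ n`, but no subgroup of `ℝ ^ n`
is a `κ`-Luzin set for this ideal.
(2) Some forcing notion forces that `ω₁` is preserved and that `SingAx` holds.
(3) For the one-point forcing notion the forced sentence is the plain principle `SingAx`. -/
theorem result :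
    (SingAx → ∃ κ : Cardinal.{0}, ℵ₀ < κ ∧ ∀ n : ℕ, 1 ≤ n →
      (∃ A : Set (Fin n → ℝ), IsLuzin κ A) ∧
        ¬ ∃ G : AddSubgroup (Fin n → ℝ), IsLuzin κ (G : Set (Fin n → ℝ))) ∧
    (∃ (P : Type) (_ : Preorder P), Nonempty P ∧
      ∀ p : P, p ∈ OmegaOnePreserved P ∧ p ∈ SingHolds P) ∧
    ((∀ p : Unit, p ∈ SingHolds Unit) ↔ SingAx) :=
  ⟨Pool.Agent.H87.Luz.failure_of_ax, Pool.Agent.H87.Luz.exists_forcing,
    Pool.Agent.H87.Luz.unit_sing⟩

end Pool.Agent.Results.MP_6ff61e_lc.NoLuzinSubgroup
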